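import Pool.Agent.Helper86.FS.StartGoals
import Pool.Agent.Helper86.FS.StartEqv

/-! Project FS (MP_75608d_al), packet FFL: the product function. -/

set_option linter.unusedVariables false

namespace Pool.Agent.Helper81.FS

open Equiv Pool.Agent.Helper3.AK Pool.Agent.Helper86.FS

/-- Fubini for product functions -/
theorem sum_prod_pi (m : ℕ) {α : Type} [Fintype α] [DecidableEq α] (u v : α → ℝ) :
    ∑ ω : (Fin m → α) × (Fin m → α), (∏ i, u (ω.1 i)) * ∏ i, v (ω.2 i) =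
      (∑ x, u x) ^ m * (∑ x, v x) ^ m := by
  rw [Fintype.sum_prod_type]
  simp only [← Finset.mul_sum, ← Finset.sum_mul]
  rw [Fintype.sum_pow, Fintype.sum_pow]

theorem sum_FF_sq {n b m : ℕ} (f0 f1 : Fn n b) :
    ∑ ω : Om n b m, FF f0 f1 ω ^ 2 = ip f0 f0 ^ m * ip f1 f1 ^ m := by
  have h := sum_prod_pi m (fun x : Fin b ↪ Fin n => f0 x * f0 x) (fun x => f1 x * f1 x)
  unfold ip
  rw [← h]
  refine Finset.sum_congr rfl fun ω _ => ?_
  unfold FF
  rw [Finset.prod_mul_distrib, Finset.prod_mul_distrib]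
  ring

theorem sum_FF_mv {n b m : ℕ} (f0 f1 : Fn n b) (y τ : Perm (Fin n)) :
    ∑ ω : Om n b m, FF f0 f1 ω * FF f0 f1 (mv y τ ω) =
      ip f0 (Act y f0) ^ m * ip f1 (Act (τ * y) f1) ^ m := by
  have h := sum_prod_pi m (fun x : Fin b ↪ Fin n => f0 x * f0 (x.trans y.toEmbedding))
    (fun x => f1 x * f1 (x.trans (τ * y).toEmbedding))
  unfold ip
  rw [show (∑ a, f0 a * (Act y f0) a) = ∑ x, f0 x * f0 (x.trans y.toEmbedding) from rfl,
    show (∑ a, f1 a * (Act (τ * y) f1) a) = ∑ x, f1 x * f1 (x.trans (τ * y).toEmbedding) from rfl,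
    ← h]
  refine Finset.sum_congr rfl fun ω _ => ?_
  unfold FF mv
  rw [Finset.prod_mul_distrib, Finset.prod_mul_distrib]
  ring

theorem pow_bound {A B g : ℝ} (m : ℕ) (hg : 0 ≤ g) (hg1 : g ≤ 1) (hA : 1 - g ≤ A)
    (hB : 1 - g ≤ B) : 1 - 2 * m * g ≤ A ^ m * B ^ m := by
  have h0 : 0 ≤ 1 - g := by linarith
  have h1 : (1 - g) ^ m ≤ A ^ m := pow_le_pow_left₀ h0 hA m
  have h2 : (1 - g) ^ m ≤ B ^ m := pow_le_pow_left₀ h0 hB m
  have h3 : (1 - g) ^ m * (1 - g) ^ m ≤ A ^ m * B ^ m :=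
    mul_le_mul h1 h2 (pow_nonneg h0 m) ((pow_nonneg h0 m).trans h1)
  have h4 := one_add_mul_le_pow (show (-2 : ℝ) ≤ -g by linarith) (2 * m)
  have h5 : (1 + -g) ^ (2 * m) = (1 - g) ^ m * (1 - g) ^ m := by
    rw [← sub_eq_add_neg, two_mul, pow_add]
  rw [h5] at h4
  push_cast at h4
  linarith

theorem ffl : FFLStmt := by
  intro n b m f0 f1 g h0 h1 hg hg1
  have hsq : ∑ ω : Om n b m, FF f0 f1 ω ^ 2 = 1 := by
    rw [sum_FF_sq, h0, h1]; simp
  refine ⟨hsq, ?_, ?_, ?_⟩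
  · intro w hw0 hw1
    have h := sum_FF_mv (m := m) f0 f1 w 1
    have e : ∑ ω : Om n b m, FF f0 f1 ω * FF f0 f1 (dact w ω) =
        ∑ ω : Om n b m, FF f0 f1 ω * FF f0 f1 (mv w 1 ω) := rfl
    rw [e, h]
    exact pow_bound m hg hg1 hw0 (by rw [one_mul]; exact hw1)
  · intro y τ hy0 hy1
    have hin := sum_FF_mv (m := m) f0 f1 y τ
    have hb := pow_bound m hg hg1 hy0 hy1
    have hbij : Function.Bijective (mv y τ : Om n b m → Om n b m) := mv_bij y τ
    have hsq' : ∑ ω : Om n b m, FF f0 f1 (mv y τ ω) ^ 2 = 1 := by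
      rw [← hsq]
      exact hbij.sum_comp (fun ω => FF f0 f1 ω ^ 2)
    set p : Om n b m → ℝ := fun ω => |FF f0 f1 (mv y τ ω) - FF f0 f1 ω| with hp
    set q : Om n b m → ℝ := fun ω => |FF f0 f1 (mv y τ ω) + FF f0 f1 ω| with hq
    have hprod : ∀ ω : Om n b m, |FF f0 f1 (mv y τ ω) ^ 2 - FF f0 f1 ω ^ 2| = p ω * q ω := by
      intro ω
      rw [hp, hq]
      simp only
      rw [← abs_mul]
      congr 1
      ring
    have hps : ∑ ω, p ω ^ 2 ≤ 4 * (m * g) := by
      have : ∑ ω, p ω ^ 2 = ∑ ω : Om n b m, FF f0 f1 (mv y τ ω) ^ 2 +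
          ∑ ω : Om n b m, FF f0 f1 ω ^ 2 - 2 * ∑ ω : Om n b m, FF f0 f1 ω * FF f0 f1 (mv y τ ω) := by
        rw [← Finset.sum_add_distrib, Finset.mul_sum, ← Finset.sum_sub_distrib]
        refine Finset.sum_congr rfl fun ω _ => ?_
        rw [hp]
        simp only
        rw [sq_abs]
        ring
      rw [this, hsq, hsq', hin]
      linarith
    have hqs : ∑ ω, q ω ^ 2 ≤ 4 := by
      have h2 : ∑ ω, p ω ^ 2 + ∑ ω, q ω ^ 2 = 2 * ∑ ω : Om n b m, FF f0 f1 (mv y τ ω) ^ 2 +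
          2 * ∑ ω : Om n b m, FF f0 f1 ω ^ 2 := by
        rw [← Finset.sum_add_distrib, Finset.mul_sum, Finset.mul_sum, ← Finset.sum_add_distrib]
        refine Finset.sum_congr rfl fun ω _ => ?_
        rw [hp, hq]
        simp only
        rw [sq_abs, sq_abs]
        ring
      rw [hsq, hsq'] at h2
      have h3 : 0 ≤ ∑ ω, p ω ^ 2 := Finset.sum_nonneg fun ω _ => sq_nonneg _
      linarith
    have hcs := Finset.sum_mul_sq_le_sq_mul_sq Finset.univ p q
    have hmg : 0 ≤ (m : ℝ) * g := mul_nonneg (Nat.cast_nonneg m) hg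
    have hfin : (∑ ω, p ω * q ω) ^ 2 ≤ (4 * Real.sqrt (m * g)) ^ 2 := by
      have h5 : (4 * Real.sqrt (m * g)) ^ 2 = 16 * (m * g) := by
        rw [mul_pow, Real.sq_sqrt hmg]; norm_num
      rw [h5]
      calc (∑ ω, p ω * q ω) ^ 2 ≤ (∑ ω, p ω ^ 2) * ∑ ω, q ω ^ 2 := hcs
        _ ≤ (4 * (m * g)) * 4 := mul_le_mul hps hqs
            (Finset.sum_nonneg fun ω _ => sq_nonneg _) (by positivity)
        _ = 16 * (m * g) := by ring
    rw [Finset.sum_congr rfl fun ω _ => hprod ω]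
    exact le_of_sq_le_sq hfin (by positivity)
  · intro h hh0 hh1
    classical
    have e : {ω : Om n b m // FF f0 f1 ω ≠ 0} ≃
        ((Fin m → {x : Fin b ↪ Fin n // f0 x ≠ 0}) × (Fin m → {x : Fin b ↪ Fin n // f1 x ≠ 0})) :=
      { toFun := fun ω => (fun i => ⟨ω.1.1 i, by
            have := ω.2
            unfold FF at this
            exact (Finset.prod_ne_zero_iff.1 (left_ne_zero_of_mul this)) i (Finset.mem_univ i)⟩,
          fun i => ⟨ω.1.2 i, by
            have := ω.2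
            unfold FF at this
            exact (Finset.prod_ne_zero_iff.1 (right_ne_zero_of_mul this)) i (Finset.mem_univ i)⟩)
        invFun := fun v => ⟨(fun i => (v.1 i).1, fun i => (v.2 i).1), by
            unfold FF
            exact mul_ne_zero (Finset.prod_ne_zero_iff.2 fun i _ => (v.1 i).2)
              (Finset.prod_ne_zero_iff.2 fun i _ => (v.2 i).2)⟩
        left_inv := fun ω => rfl
        right_inv := fun v => rfl }
    rw [Nat.card_congr e, Nat.card_prod, Nat.card_pi, Nat.card_pi]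
    simp only [Finset.prod_const, Finset.card_univ, Fintype.card_fin]
    push_cast
    have h1' := pow_le_pow_left₀ (Nat.cast_nonneg _) hh0 m
    have h2' := pow_le_pow_left₀ (Nat.cast_nonneg _) hh1 m
    calc _ ≤ Real.exp h ^ m * Real.exp h ^ m :=
          mul_le_mul h1' h2' (by positivity) (by positivity)
      _ = Real.exp (2 * m * h) := by
          rw [← pow_add, ← Real.exp_nat_mul]
          congr 1
          push_cast
          ring

end Pool.Agent.Helper81.FS
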