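import Pool.Agent.Helper91.FS.Goals

/-! Packet FS-PG4: stabilisers of the 4-sets in sharply 3-transitive groups like `PGL(2, q)`. -/

set_option autoImplicit false

namespace Pool.Agent.Helper81.FS

open Finset
open Pool.Agent.Helper47.SR (Grp mv lev wt Ew W)
open Pool.Agent.Helper49.NF
open Pool.Agent.Helper91.FS

variable {n : ℕ}

open Classical in
/-- the stabiliser of a set as a finset -/
noncomputable def sb (G : Grp n) (A : Finset (Fin n)) : Finset (Equiv.Perm (Fin n)) :=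
  univ.filter (fun γ => γ ∈ G ∧ mv γ A = A)

lemma mem_sb {G : Grp n} {A : Finset (Fin n)} {γ : Equiv.Perm (Fin n)} :
    γ ∈ sb G A ↔ γ ∈ G ∧ mv γ A = A := by
  simp [sb]

lemma mv_of {A : Finset (Fin n)} {γ : Equiv.Perm (Fin n)} (h : ∀ x ∈ A, γ x ∈ A) :
    mv γ A = A := by
  apply eq_of_subset_of_card_le
  · intro y hy
    rw [mem_map] at hy
    obtain ⟨x, hx, rfl⟩ := hy
    exact h x hx
  · rw [card_map]

lemma card_sb (G : Grp n) (A : Finset (Fin n)) : #(sb G A) = 1 + wt G A := by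
  classical
  have h : sb G A = insert 1 (univ.filter (fun γ => γ ∈ G ∧ γ ≠ 1 ∧ mv γ A = A)) := by
    ext γ
    simp only [mem_sb, mem_filter, mem_univ, true_and, mem_insert]
    constructor
    · rintro ⟨h1, h2⟩
      by_cases h : γ = 1
      · exact Or.inl h
      · exact Or.inr ⟨h1, h, h2⟩
    · rintro (rfl | ⟨h1, _, h2⟩)
      · exact ⟨G.one_mem, mv_of (fun x hx => hx)⟩
      · exact ⟨h1, h2⟩
  rw [h, card_insert_of_notMem (by simp), add_comm]
  unfold wt
  congr 1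

lemma mv_mem {A : Finset (Fin n)} {γ : Equiv.Perm (Fin n)} (h : mv γ A = A) (x : Fin n) :
    γ x ∈ A ↔ x ∈ A := by
  constructor
  · intro hx
    rw [← h, mem_map] at hx
    obtain ⟨y, hy, hyx⟩ := hx
    rwa [← γ.injective hyx]
  · intro hx
    rw [← h]
    exact mem_map_of_mem _ hx

lemma agree {G : Grp n} (hG : PG n G) {a b c : Fin n} (hab : a ≠ b) (hac : a ≠ c) (hbc : b ≠ c)
    {γ δ : Equiv.Perm (Fin n)} (hγ : γ ∈ G) (hδ : δ ∈ G) (h1 : γ a = δ a) (h2 : γ b = δ b)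
    (h3 : γ c = δ c) : γ = δ := by
  have h := hG.un a b c hab hac hbc (δ⁻¹ * γ) (G.mul_mem (G.inv_mem hδ) hγ)
    (by rw [Equiv.Perm.mul_apply, h1]; simp) (by rw [Equiv.Perm.mul_apply, h2]; simp)
    (by rw [Equiv.Perm.mul_apply, h3]; simp)
  exact (inv_mul_eq_one.1 h).symm

/-- the elements of a 4-set -/
lemma four {A : Finset (Fin n)} (hA : #A = 4) {a : Fin n} (ha : a ∈ A) :
    ∃ b c d, a ≠ b ∧ a ≠ c ∧ a ≠ d ∧ b ≠ c ∧ b ≠ d ∧ c ≠ d ∧ A = {a, b, c, d} := by
  classical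
  have h1 : #(A.erase a) = 3 := by rw [card_erase_of_mem ha, hA]
  obtain ⟨b, c, d, hbc, hbd, hcd, h⟩ := card_eq_three.1 h1
  have hb : b ∈ A.erase a := by rw [h]; simp
  have hc : c ∈ A.erase a := by rw [h]; simp
  have hd : d ∈ A.erase a := by rw [h]; simp
  refine ⟨b, c, d, (ne_of_mem_erase hb).symm, (ne_of_mem_erase hc).symm,
    (ne_of_mem_erase hd).symm, hbc, hbd, hcd, ?_⟩
  rw [← h, insert_erase ha]

lemma move {G : Grp n} (hG : PG n G) {A : Finset (Fin n)} {a b c d : Fin n} (hab : a ≠ b)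
    (hac : a ≠ c) (had : a ≠ d) (hbc : b ≠ c) (hbd : b ≠ d) (hA : A = {a, b, c, d}) :
    ∃ γ ∈ sb G A, γ a = b := by
  obtain ⟨γ, hγ, h1, h2, h3⟩ := hG.ex a b c b a d hab hac hbc hab.symm hbd had
  have h4 := hG.inv a b hab γ hγ h1 h2
  have h5 : γ d = c := by
    have := congrArg (fun g : Equiv.Perm (Fin n) => g c) h4
    simpa [Equiv.Perm.mul_apply, h3] using this
  refine ⟨γ, mem_sb.2 ⟨hγ, mv_of ?_⟩, h1⟩
  intro x hx
  rw [hA] at hx ⊢
  simp only [mem_insert, mem_singleton] at hx ⊢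
  rcases hx with rfl | rfl | rfl | rfl
  · rw [h1]; tauto
  · rw [h2]; tauto
  · rw [h3]; tauto
  · rw [h5]; tauto

lemma low {G : Grp n} (hG : PG n G) {A : Finset (Fin n)} (hA : #A = 4) : 4 ≤ #(sb G A) := by
  classical
  obtain ⟨a, ha⟩ : A.Nonempty := by rw [← card_pos, hA]; norm_num
  obtain ⟨b, c, d, hab, hac, had, hbc, hbd, hcd, hAe⟩ := four hA ha
  rw [← hA]
  apply card_le_card_of_surjOn (fun γ => γ a)
  intro t ht
  have ht' : t ∈ A := ht
  rw [hAe] at ht'
  simp only [mem_insert, mem_singleton] at ht'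
  rcases ht' with rfl | rfl | rfl | rfl
  · exact ⟨1, by
      rw [mem_coe, mem_sb]
      exact ⟨G.one_mem, mv_of (fun x hx => hx)⟩, rfl⟩
  · obtain ⟨γ, h1, h2⟩ := move hG hab hac had hbc hbd hAe
    exact ⟨γ, h1, h2⟩
  · obtain ⟨γ, h1, h2⟩ := move hG hac hab had hbc.symm hcd (A := A) (by
      rw [hAe]; ext x; simp only [mem_insert, mem_singleton]; tauto)
    exact ⟨γ, h1, h2⟩
  · obtain ⟨γ, h1, h2⟩ := move hG had hab hac hbd.symm hcd.symm (A := A) (by
      rw [hAe]; ext x; simp only [mem_insert, mem_singleton]; tauto)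
    exact ⟨γ, h1, h2⟩

lemma high {G : Grp n} (hG : PG n G) {A : Finset (Fin n)} (hA : #A = 4) : #(sb G A) ≤ 24 := by
  classical
  obtain ⟨a, ha⟩ : A.Nonempty := by rw [← card_pos, hA]; norm_num
  obtain ⟨b, c, d, hab, hac, had, hbc, hbd, hcd, hAe⟩ := four hA ha
  have hb : b ∈ A := by rw [hAe]; simp
  have hc : c ∈ A := by rw [hAe]; simp
  have h1 : Fintype.card (sb G A) ≤ Fintype.card (Equiv.Perm {x // x ∈ A}) := by
    apply Fintype.card_le_of_injective
      (fun γ : sb G A => Equiv.Perm.subtypePerm (p := fun x => x ∈ A) γ.1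
        (fun x => mv_mem (mem_sb.1 γ.2).2 x))
    intro γ δ h
    apply Subtype.ext
    have h2 : ∀ x (hx : x ∈ A), γ.1 x = δ.1 x := by
      intro x hx
      have := congrArg (fun g : Equiv.Perm {x // x ∈ A} => (g ⟨x, hx⟩).1) h
      simpa using this
    exact agree hG hab hac hbc (mem_sb.1 γ.2).1 (mem_sb.1 δ.2).1 (h2 a ha) (h2 b hb) (h2 c hc)
  rw [Fintype.card_perm, Fintype.card_coe, Fintype.card_coe, hA] at h1
  exact h1

/-- the exceptional tuples -/
def Ex (G : Grp n) (a b c d : Fin n) : Prop :=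
  a ≠ b ∧ a ≠ c ∧ b ≠ c ∧ ∃ γ ∈ G, γ d = d ∧
    ((γ a = c ∧ γ b = b ∧ γ c = a) ∨ (γ a = b ∧ γ b = c ∧ γ c = a))

lemma bad_tuple {G : Grp n} (hG : PG n G) {A : Finset (Fin n)} (hA : #A = 4)
    (h : 4 < #(sb G A)) : ∃ a b c d, A = {a, b, c, d} ∧ Ex G a b c d := by
  classical
  obtain ⟨a, ha⟩ : A.Nonempty := by rw [← card_pos, hA]; norm_num
  obtain ⟨b, c, d, hab, hac, had, hbc, hbd, hcd, hAe⟩ := four hA ha
  have h1 : ∀ γ ∈ sb G A, γ a ∈ A := fun γ hγ => (mv_mem (mem_sb.1 hγ).2 a).2 ha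
  obtain ⟨γ, hγ, δ, hδ, hne, heq⟩ := exists_ne_map_eq_of_card_lt_of_maps_to (t := A)
    (by rw [hA]; exact h) h1
  obtain ⟨g, hg⟩ : ∃ g, g = δ⁻¹ * γ := ⟨_, rfl⟩
  have hgG : g ∈ G := by
    rw [hg]
    exact G.mul_mem (G.inv_mem (mem_sb.1 hδ).1) (mem_sb.1 hγ).1
  have hga : g a = a := by
    rw [hg, Equiv.Perm.mul_apply, heq]
    simp
  have hg1 : g ≠ 1 := by
    intro h
    exact hne (inv_mul_eq_one.1 (hg ▸ h)).symm
  have hgA : ∀ x ∈ A, g x ∈ A := by
    intro x hx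
    have h2 := (mv_mem (mem_sb.1 hγ).2 x).2 hx
    rw [← mv_mem (mem_sb.1 hδ).2, hg, Equiv.Perm.mul_apply]
    simpa using h2
  have hin : ∀ x, x ≠ a → g x ≠ a := fun x hx hgx => hx (g.injective (hgx.trans hga.symm))
  have hb : g b = b ∨ g b = c ∨ g b = d := by
    have h2 := hgA b (by rw [hAe]; simp)
    have h3 := hin b hab.symm
    rw [hAe] at h2
    simp only [mem_insert, mem_singleton] at h2
    tauto
  have hc : g c = b ∨ g c = c ∨ g c = d := by
    have h2 := hgA c (by rw [hAe]; simp)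
    have h3 := hin c hac.symm
    rw [hAe] at h2
    simp only [mem_insert, mem_singleton] at h2
    tauto
  have hd : g d = b ∨ g d = c ∨ g d = d := by
    have h2 := hgA d (by rw [hAe]; simp)
    have h3 := hin d had.symm
    rw [hAe] at h2
    simp only [mem_insert, mem_singleton] at h2
    tauto
  have ibc : g b ≠ g c := fun h => hbc (g.injective h)
  have ibd : g b ≠ g d := fun h => hbd (g.injective h)
  have icd : g c ≠ g d := fun h => hcd (g.injective h)
  rcases hb with hb | hb | hb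
  · rcases hc with hc | hc | hc
    · exact absurd (hb.trans hc.symm) ibc
    · exact absurd (hG.un a b c hab hac hbc g hgG hga hb hc) hg1
    · rcases hd with hd | hd | hd
      · exact absurd (hb.trans hd.symm) ibd
      · refine ⟨c, b, d, a, ?_, hbc.symm, hcd, hbd, g, hgG, hga, Or.inl ⟨hc, hb, hd⟩⟩
        rw [hAe]; ext x; simp only [mem_insert, mem_singleton]; tauto
      · exact absurd (hc.trans hd.symm) icd
  · rcases hc with hc | hc | hc
    · rcases hd with hd | hd | hd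
      · exact absurd (hc.trans hd.symm) icd
      · exact absurd (hb.trans hd.symm) ibd
      · refine ⟨b, d, c, a, ?_, hbd, hbc, hcd.symm, g, hgG, hga, Or.inl ⟨hb, hd, hc⟩⟩
        rw [hAe]; ext x; simp only [mem_insert, mem_singleton]; tauto
    · exact absurd (hb.trans hc.symm) ibc
    · rcases hd with hd | hd | hd
      · refine ⟨b, c, d, a, ?_, hbc, hbd, hcd, g, hgG, hga, Or.inr ⟨hb, hc, hd⟩⟩
        rw [hAe]; ext x; simp only [mem_insert, mem_singleton]; tauto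
      · exact absurd (hb.trans hd.symm) ibd
      · exact absurd (hc.trans hd.symm) icd
  · rcases hc with hc | hc | hc
    · rcases hd with hd | hd | hd
      · exact absurd (hc.trans hd.symm) icd
      · refine ⟨b, d, c, a, ?_, hbd, hbc, hcd.symm, g, hgG, hga, Or.inr ⟨hb, hd, hc⟩⟩
        rw [hAe]; ext x; simp only [mem_insert, mem_singleton]; tauto
      · exact absurd (hb.trans hd.symm) ibd
    · rcases hd with hd | hd | hd
      · refine ⟨b, c, d, a, ?_, hbc, hbd, hcd, g, hgG, hga, Or.inl ⟨hb, hc, hd⟩⟩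
        rw [hAe]; ext x; simp only [mem_insert, mem_singleton]; tauto
      · exact absurd (hc.trans hd.symm) icd
      · exact absurd (hb.trans hd.symm) ibd
    · exact absurd (hb.trans hc.symm) ibc

lemma fib {G : Grp n} (hG : PG n G) {a b c a' b' c' : Fin n} (hab : a ≠ b) (hac : a ≠ c)
    (hbc : b ≠ c) (ha : a' ≠ a) (D : Finset (Fin n))
    (hD : ∀ d ∈ D, ∃ γ ∈ G, γ d = d ∧ γ a = a' ∧ γ b = b' ∧ γ c = c') : #D ≤ 2 := by
  by_contra hc
  push Not at hc
  obtain ⟨x, hx, y, hy, z, hz, hxy, hxz, hyz⟩ := two_lt_card.1 hc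
  obtain ⟨γ, hγ, h1, h2, h3, h4⟩ := hD x hx
  obtain ⟨γ', hγ', h1', h2', h3', h4'⟩ := hD y hy
  obtain ⟨γ'', hγ'', h1'', h2'', h3'', h4''⟩ := hD z hz
  have e1 : γ' = γ := agree hG hab hac hbc hγ' hγ (h2'.trans h2.symm) (h3'.trans h3.symm)
    (h4'.trans h4.symm)
  have e2 : γ'' = γ := agree hG hab hac hbc hγ'' hγ (h2''.trans h2.symm) (h3''.trans h3.symm)
    (h4''.trans h4.symm)
  rw [e1] at h1'
  rw [e2] at h1''
  have e3 := hG.un x y z hxy hxz hyz γ hγ h1 h1' h1''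
  rw [e3] at h2
  exact ha h2.symm

lemma fib4 {G : Grp n} (hG : PG n G) (a b c : Fin n) (D : Finset (Fin n))
    (hD : ∀ d ∈ D, Ex G a b c d) : #D ≤ 4 := by
  classical
  rcases D.eq_empty_or_nonempty with rfl | ⟨d₀, hd₀⟩
  · simp
  obtain ⟨hab, hac, hbc, -⟩ := hD d₀ hd₀
  obtain ⟨D1, hD1⟩ : ∃ D1, D1 = D.filter (fun d => ∃ γ ∈ G, γ d = d ∧ γ a = c ∧ γ b = b ∧ γ c = a) :=
    ⟨_, rfl⟩
  obtain ⟨D2, hD2⟩ : ∃ D2, D2 = D.filter (fun d => ∃ γ ∈ G, γ d = d ∧ γ a = b ∧ γ b = c ∧ γ c = a) :=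
    ⟨_, rfl⟩
  have h1 : D ⊆ D1 ∪ D2 := by
    intro d hd
    obtain ⟨-, -, -, γ, hγ, h1, h2 | h2⟩ := hD d hd
    · exact mem_union_left _ (by rw [hD1, mem_filter]; exact ⟨hd, γ, hγ, h1, h2⟩)
    · exact mem_union_right _ (by rw [hD2, mem_filter]; exact ⟨hd, γ, hγ, h1, h2⟩)
  have h2 : #D1 ≤ 2 := fib hG hab hac hbc hac.symm D1 (fun d hd => by
    rw [hD1, mem_filter] at hd; exact hd.2)
  have h3 : #D2 ≤ 2 := fib hG hab hac hbc hab.symm D2 (fun d hd => by
    rw [hD2, mem_filter] at hd; exact hd.2)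
  calc #D ≤ #(D1 ∪ D2) := card_le_card h1
    _ ≤ #D1 + #D2 := card_union_le _ _
    _ ≤ 4 := by omega

lemma bad_card4 {G : Grp n} (hG : PG n G) :
    #((lev n 4).filter (fun A => 4 < 1 + wt G A)) ≤ 4 * n ^ 3 := by
  classical
  obtain ⟨T, hT⟩ : ∃ T : Finset (Fin n × Fin n × Fin n × Fin n),
      T = univ.filter (fun p => Ex G p.1 p.2.1 p.2.2.1 p.2.2.2) := ⟨_, rfl⟩
  have h1 : (lev n 4).filter (fun A => 4 < 1 + wt G A) ⊆
      T.image (fun p => ({p.1, p.2.1, p.2.2.1, p.2.2.2} : Finset (Fin n))) := by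
    intro A hA
    rw [mem_filter, mem_powersetCard] at hA
    obtain ⟨a, b, c, d, h2, h3⟩ := bad_tuple hG hA.1.2 (by rw [card_sb]; exact hA.2)
    rw [mem_image]
    exact ⟨(a, b, c, d), by rw [hT, mem_filter]; exact ⟨mem_univ _, h3⟩, h2.symm⟩
  have h2 : #T ≤ 4 * #(univ : Finset (Fin n × Fin n × Fin n)) := by
    apply card_le_mul_card_image_of_maps_to
      (f := fun p : Fin n × Fin n × Fin n × Fin n => (p.1, p.2.1, p.2.2.1)) (fun _ _ => mem_univ _)
    rintro ⟨a, b, c⟩ -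
    have h3 : #(T.filter (fun p => (p.1, p.2.1, p.2.2.1) = (a, b, c))) ≤
        #((univ : Finset (Fin n)).filter (fun d => Ex G a b c d)) := by
      apply card_le_card_of_injOn (fun p => p.2.2.2)
      · rintro ⟨a', b', c', d'⟩ hp
        simp only [coe_filter, hT, mem_filter, mem_univ, true_and, Prod.mk.injEq,
          Set.mem_ofPred_eq] at hp ⊢
        obtain ⟨h4, rfl, rfl, rfl⟩ := hp
        exact h4
      · rintro ⟨a', b', c', d'⟩ hp ⟨a'', b'', c'', d''⟩ hq h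
        simp only [coe_filter, hT, mem_filter, mem_univ, true_and, Prod.mk.injEq,
          Set.mem_ofPred_eq] at hp hq h
        obtain ⟨-, rfl, rfl, rfl⟩ := hp
        obtain ⟨-, rfl, rfl, rfl⟩ := hq
        rw [h]
    exact h3.trans (fib4 hG a b c _ (fun d hd => (mem_filter.1 hd).2))
  calc _ ≤ _ := card_le_card h1
    _ ≤ #T := card_image_le
    _ ≤ _ := h2
    _ = 4 * n ^ 3 := by
        rw [card_univ]
        simp only [Fintype.card_prod, Fintype.card_fin]
        ring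

/-- **PG4**. -/
theorem goal_PG4 : Goal_PG4 := by
  classical
  intro n G hn hG
  constructor
  · intro A hA
    rw [mem_powersetCard] at hA
    rw [← card_sb]
    exact low hG hA.2
  · unfold W
    have h1 : ∀ A ∈ lev n 4, 1 + wt G A ≤ 4 + if 4 < 1 + wt G A then 20 else 0 := by
      intro A hA
      rw [mem_powersetCard] at hA
      have h2 := high hG hA.2
      rw [card_sb] at h2
      split_ifs with h
      · omega
      · omega
    refine (sum_le_sum h1).trans ?_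
    rw [sum_add_distrib, sum_const, ← sum_filter, sum_const, smul_eq_mul, smul_eq_mul]
    have h3 := bad_card4 hG
    have h4 : #(lev n 4) = n.choose 4 := by
      rw [card_powersetCard, card_univ, Fintype.card_fin]
    rw [h4]
    nlinarith

end Pool.Agent.Helper81.FS
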